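import Pool.Agent.Helper85.LC.Defs

/-!
# MP_816dee_pr, modules P1, P2a, P3 (finite product measures)
-/

namespace Pool.H85.LC

open Finset

section P
variable {α : Type*}

theorem wt_nonneg (E F : Finset α) {p : ℝ} (h0 : 0 ≤ p) (h1 : p ≤ 1) :
    0 ≤ p ^ F.card * (1 - p) ^ (E.card - F.card) :=
  mul_nonneg (pow_nonneg h0 _) (pow_nonneg (by linarith) _)

theorem pr_nonneg (E : Finset α) {p : ℝ} (h0 : 0 ≤ p) (h1 : p ≤ 1) (A : Finset α → Prop) :
    0 ≤ pr E p A := by
  unfold pr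
  exact Finset.sum_nonneg fun F _ => wt_nonneg E F h0 h1

theorem pr_mono (E : Finset α) {p : ℝ} (h0 : 0 ≤ p) (h1 : p ≤ 1) {A B : Finset α → Prop}
    (h : ∀ F ⊆ E, A F → B F) : pr E p A ≤ pr E p B := by
  classical
  unfold pr
  refine Finset.sum_le_sum_of_subset_of_nonneg ?_ fun F _ _ => wt_nonneg E F h0 h1
  intro F hF
  rw [Finset.mem_filter] at hF ⊢
  exact ⟨hF.1, h F (Finset.mem_powerset.1 hF.1) hF.2⟩

/-- expectation form -/
noncomputable def ex (E : Finset α) (p : ℝ) (f : Finset α → ℝ) : ℝ :=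
  ∑ F ∈ E.powerset, p ^ F.card * (1 - p) ^ (E.card - F.card) * f F

open Classical in
theorem pr_eq_ex (E : Finset α) (p : ℝ) (A : Finset α → Prop) :
    pr E p A = ex E p (fun F => if A F then 1 else 0) := by
  unfold pr ex
  rw [Finset.sum_filter]
  refine Finset.sum_congr rfl fun F _ => ?_
  by_cases hA : A F <;> simp [hA]

theorem ex_one (E : Finset α) (p : ℝ) : ex E p (fun _ => 1) = 1 := by
  unfold ex
  simp only [mul_one]
  rw [Finset.sum_pow_mul_eq_add_pow]
  simp

theorem pr_compl (E : Finset α) (p : ℝ) (A : Finset α → Prop) :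
    pr E p A + pr E p (fun F => ¬ A F) = 1 := by
  classical
  have := ex_one E p
  unfold ex at this
  simp only [mul_one] at this
  refine Eq.trans ?_ this
  unfold pr
  rw [← Finset.sum_filter_add_sum_filter_not E.powerset A
    (fun F => p ^ F.card * (1 - p) ^ (E.card - F.card))]
  congr 1
  exact Finset.sum_congr (by ext F; simp only [Finset.mem_filter]) fun _ _ => rfl

theorem ex_mono_fun (E : Finset α) {p : ℝ} (h0 : 0 ≤ p) (h1 : p ≤ 1) {f g : Finset α → ℝ}
    (h : ∀ F ⊆ E, f F ≤ g F) : ex E p f ≤ ex E p g := by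
  unfold ex
  exact Finset.sum_le_sum fun F hF =>
    mul_le_mul_of_nonneg_left (h F (Finset.mem_powerset.1 hF)) (wt_nonneg E F h0 h1)

theorem pr_exists_le {ι : Type*} (E : Finset α) {p : ℝ} (h0 : 0 ≤ p) (h1 : p ≤ 1)
    (s : Finset ι) (A : ι → Finset α → Prop) :
    pr E p (fun F => ∃ i ∈ s, A i F) ≤ ∑ i ∈ s, pr E p (A i) := by
  classical
  simp only [pr_eq_ex]
  unfold ex
  rw [Finset.sum_comm]
  refine Finset.sum_le_sum fun F _ => ?_
  rw [← Finset.mul_sum]
  refine mul_le_mul_of_nonneg_left ?_ (wt_nonneg E F h0 h1)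
  beta_reduce
  split_ifs with hA
  · obtain ⟨i, hi, hAi⟩ := hA
    calc (1 : ℝ) = if A i F then 1 else 0 := by rw [if_pos hAi]
      _ ≤ ∑ i ∈ s, (if A i F then (1 : ℝ) else 0) :=
        Finset.single_le_sum (f := fun i => if A i F then (1 : ℝ) else 0)
          (fun j _ => by positivity) hi
  · exact Finset.sum_nonneg fun j _ => by positivity

theorem pr_disjoint (E S : Finset α) (hS : S ⊆ E) (p : ℝ) :
    pr E p (fun F => Disjoint S F) = (1 - p) ^ S.card := by
  classical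
  have hset : (E.powerset.filter fun F => Disjoint S F) = (E \ S).powerset := by
    ext F
    simp only [Finset.mem_filter, Finset.mem_powerset, Finset.subset_sdiff]
    constructor
    · rintro ⟨h1, h2⟩
      exact ⟨h1, h2.symm⟩
    · rintro ⟨h1, h2⟩
      exact ⟨h1, h2.symm⟩
  have key : pr E p (fun F => Disjoint S F) =
      ∑ F ∈ (E \ S).powerset, p ^ F.card * (1 - p) ^ (E.card - F.card) := by
    unfold pr
    rw [← hset]
    refine Finset.sum_congr ?_ fun _ _ => rfl
    ext F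
    simp only [Finset.mem_filter]
  rw [key]
  have h2 : ∀ F ∈ (E \ S).powerset, p ^ F.card * (1 - p) ^ (E.card - F.card) =
      (1 - p) ^ S.card * (p ^ F.card * (1 - p) ^ ((E \ S).card - F.card)) := by
    intro F hF
    have hF' := Finset.card_le_card (Finset.mem_powerset.1 hF)
    have hc : E.card = (E \ S).card + S.card := by
      rw [Finset.card_sdiff_add_card_eq_card hS]
    have : E.card - F.card = S.card + ((E \ S).card - F.card) := by omega
    rw [this, pow_add]
    ring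
  rw [Finset.sum_congr rfl h2, ← Finset.mul_sum, Finset.sum_pow_mul_eq_add_pow]
  simp

/-! ## two rounds -/

theorem ex_insert [DecidableEq α] {E : Finset α} {a : α} (ha : a ∉ E) (p : ℝ)
    (f : Finset α → ℝ) :
    ex (insert a E) p f = p * ex E p (fun F => f (insert a F)) + (1 - p) * ex E p f := by
  unfold ex
  rw [Finset.sum_powerset_insert ha, add_comm, Finset.mul_sum, Finset.mul_sum]
  congr 1
  · refine Finset.sum_congr rfl fun F hF => ?_
    have hF' := Finset.mem_powerset.1 hF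
    have haF : a ∉ F := fun h => ha (hF' h)
    rw [Finset.card_insert_of_notMem haF, Finset.card_insert_of_notMem ha, pow_succ,
      Nat.add_sub_add_right]
    ring
  · refine Finset.sum_congr rfl fun F hF => ?_
    have hF' := Finset.card_le_card (Finset.mem_powerset.1 hF)
    rw [Finset.card_insert_of_notMem ha, Nat.sub_add_comm hF', pow_succ]
    ring

theorem ex_empty (p : ℝ) (f : Finset α → ℝ) : ex ∅ p f = f ∅ := by
  simp [ex]

theorem ex_union [DecidableEq α] (E : Finset α) (q₁ q₂ : ℝ) (f : Finset α → ℝ) :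
    ex E q₁ (fun F₁ => ex E q₂ (fun F₂ => f (F₁ ∪ F₂))) = ex E (q₁ + q₂ - q₁ * q₂) f := by
  induction E using Finset.induction_on generalizing f with
  | empty => simp [ex_empty]
  | insert a E ha ih =>
    rw [ex_insert ha q₁, ex_insert ha (q₁ + q₂ - q₁ * q₂)]
    have e1 : ∀ F₁ : Finset α, ex (insert a E) q₂ (fun F₂ => f (insert a F₁ ∪ F₂)) =
        ex E q₂ (fun F₂ => f (insert a (F₁ ∪ F₂))) := by
      intro F₁
      rw [ex_insert ha]
      have h1 : ∀ F₂, insert a F₁ ∪ insert a F₂ = insert a (F₁ ∪ F₂) := by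
        intro F₂; ext x; simp only [Finset.mem_union, Finset.mem_insert]; tauto
      have h2 : ∀ F₂, insert a F₁ ∪ F₂ = insert a (F₁ ∪ F₂) := by
        intro F₂; ext x; simp only [Finset.mem_union, Finset.mem_insert]; tauto
      simp only [h1, h2]
      ring
    have e2 : ∀ F₁ : Finset α, ex (insert a E) q₂ (fun F₂ => f (F₁ ∪ F₂)) =
        q₂ * ex E q₂ (fun F₂ => f (insert a (F₁ ∪ F₂))) +
          (1 - q₂) * ex E q₂ (fun F₂ => f (F₁ ∪ F₂)) := by
      intro F₁
      rw [ex_insert ha]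
      have h1 : ∀ F₂, F₁ ∪ insert a F₂ = insert a (F₁ ∪ F₂) := by
        intro F₂; ext x; simp only [Finset.mem_union, Finset.mem_insert]; tauto
      simp only [h1]
    simp only [e1, e2]
    have i1 := ih (fun F => f (insert a F))
    have i2 := ih f
    have e3 : ex E q₁ (fun F₁ => q₂ * ex E q₂ (fun F₂ => f (insert a (F₁ ∪ F₂))) +
          (1 - q₂) * ex E q₂ (fun F₂ => f (F₁ ∪ F₂))) =
        q₂ * ex E q₁ (fun F₁ => ex E q₂ (fun F₂ => f (insert a (F₁ ∪ F₂)))) +
        (1 - q₂) * ex E q₁ (fun F₁ => ex E q₂ (fun F₂ => f (F₁ ∪ F₂))) := by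
      conv_lhs => unfold ex
      conv_rhs => rw [ex, ex]
      rw [Finset.mul_sum, Finset.mul_sum, ← Finset.sum_add_distrib]
      refine Finset.sum_congr rfl fun F _ => ?_
      unfold ex
      ring
    rw [e3, i1, i2]
    ring

theorem ex_mono [DecidableEq α] (E : Finset α) {q p : ℝ} (h0 : 0 ≤ q) (hqp : q ≤ p)
    (h1 : p ≤ 1) (f : Finset α → ℝ) (hf : ∀ F F', F ⊆ F' → F' ⊆ E → f F ≤ f F') :
    ex E q f ≤ ex E p f := by
  induction E using Finset.induction_on generalizing f with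
  | empty => simp [ex_empty]
  | insert a E ha ih =>
    rw [ex_insert ha, ex_insert ha]
    have i1 := ih (fun F => f (insert a F)) (fun F F' h h' =>
      hf _ _ (Finset.insert_subset_insert _ h) (Finset.insert_subset_insert _ h'))
    have i2 := ih f (fun F F' h h' => hf _ _ h (h'.trans (Finset.subset_insert _ _)))
    have i3 : ex E p f ≤ ex E p (fun F => f (insert a F)) :=
      ex_mono_fun E (h0.trans hqp) h1 fun F hF =>
        hf _ _ (Finset.subset_insert _ _) (Finset.insert_subset_insert _ hF)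
    have hq1 : q ≤ 1 := hqp.trans h1
    calc q * ex E q (fun F => f (insert a F)) + (1 - q) * ex E q f
        ≤ q * ex E p (fun F => f (insert a F)) + (1 - q) * ex E p f :=
          add_le_add (mul_le_mul_of_nonneg_left i1 h0)
            (mul_le_mul_of_nonneg_left i2 (by linarith))
      _ ≤ p * ex E p (fun F => f (insert a F)) + (1 - p) * ex E p f := by
          nlinarith

/-- two independent rounds -/
theorem pr_two_rounds [DecidableEq α] (E : Finset α) {q₁ q₂ p δ₁ δ₂ : ℝ} (h1 : 0 ≤ q₁)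
    (h2 : 0 ≤ q₂) (hp : q₁ + q₂ ≤ p) (hp1 : p ≤ 1) (hd1 : 0 ≤ δ₁) (hd2 : 0 ≤ δ₂)
    {A good : Finset α → Prop}
    (hA : ∀ F F', F ⊆ F' → F' ⊆ E → A F → A F') (hgood : 1 - δ₁ ≤ pr E q₁ good)
    (hstep : ∀ F₁ ⊆ E, good F₁ → 1 - δ₂ ≤ pr E q₂ (fun F₂ => A (F₁ ∪ F₂))) :
    1 - δ₁ - δ₂ ≤ pr E p A := by
  classical
  have hp0 : 0 ≤ p := by linarith
  by_cases hδ : 1 ≤ δ₂
  · have := pr_nonneg E hp0 hp1 A
    linarith
  push Not at hδ
  have hq1 : q₁ ≤ 1 := by linarith
  have hq2 : q₂ ≤ 1 := by linarith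
  set q : ℝ := q₁ + q₂ - q₁ * q₂ with hq
  have hq0 : 0 ≤ q := by nlinarith
  have hqp : q ≤ p := by nlinarith [mul_nonneg h1 h2]
  have e1 : pr E q A ≤ pr E p A := by
    rw [pr_eq_ex, pr_eq_ex]
    refine ex_mono E hq0 hqp hp1 _ fun F F' h h' => ?_
    split_ifs with ha hb hb
    · exact le_rfl
    · exact absurd (hA F F' h h' ha) hb
    · exact zero_le_one
    · exact le_rfl
  have e2 : pr E q A = ex E q₁ (fun F₁ => ex E q₂ (fun F₂ => if A (F₁ ∪ F₂) then 1 else 0)) := by
    rw [pr_eq_ex, ex_union E q₁ q₂ (fun F => if A F then 1 else 0)]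
  have e3 : (1 - δ₂) * pr E q₁ good ≤
      ex E q₁ (fun F₁ => ex E q₂ (fun F₂ => if A (F₁ ∪ F₂) then 1 else 0)) := by
    have e4 : (1 - δ₂) * pr E q₁ good = ex E q₁ (fun F => (1 - δ₂) * if good F then 1 else 0) := by
      rw [pr_eq_ex]
      unfold ex
      rw [Finset.mul_sum]
      exact Finset.sum_congr rfl fun F _ => by ring
    rw [e4]
    refine ex_mono_fun E h1 hq1 fun F hF => ?_
    have e5 : ex E q₂ (fun F₂ => if A (F ∪ F₂) then (1:ℝ) else 0) =
        pr E q₂ (fun F₂ => A (F ∪ F₂)) := by rw [pr_eq_ex]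
    rw [e5]
    split_ifs with hg
    · rw [mul_one]
      exact hstep F hF hg
    · rw [mul_zero]
      exact pr_nonneg E h2 hq2 _
  have e6 : (1 - δ₂) * (1 - δ₁) ≤ (1 - δ₂) * pr E q₁ good :=
    mul_le_mul_of_nonneg_left hgood (by linarith)
  have e7 : 1 - δ₁ - δ₂ ≤ (1 - δ₂) * (1 - δ₁) := by nlinarith [mul_nonneg hd1 hd2]
  linarith [e2 ▸ e3]

/-- every pair `A, B` with many edges is hit -/
theorem seeing {V : Type*} (E : Finset (Sym2 V)) (Λ : Finset V) {q : ℝ} (h0 : 0 ≤ q)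
    (h1 : q ≤ 1) (x : ℕ) :
    1 - 4 ^ Λ.card * (1 - q) ^ x ≤ pr E q (fun F => ∀ A ⊆ Λ, ∀ B ⊆ Λ, x ≤ eb E A B →
      ∃ a ∈ A, ∃ b ∈ B, s(a, b) ∈ F) := by
  classical
  set Ev : Finset (Sym2 V) → Prop := fun F => ∀ A ⊆ Λ, ∀ B ⊆ Λ, x ≤ eb E A B →
      ∃ a ∈ A, ∃ b ∈ B, s(a, b) ∈ F with hEv
  have hc := pr_compl E q Ev
  have hx0 : (0:ℝ) ≤ (1 - q) ^ x := pow_nonneg (by linarith) _
  suffices hsuff : pr E q (fun F => ¬ Ev F) ≤ 4 ^ Λ.card * (1 - q) ^ x by linarith
  set I : Finset (Finset V × Finset V) := Λ.powerset ×ˢ Λ.powerset with hI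
  have hIc : (I.card : ℝ) = 4 ^ Λ.card := by
    rw [hI, Finset.card_product, Finset.card_powerset, ← mul_pow]
    norm_num
  set Bad : Finset V × Finset V → Finset (Sym2 V) → Prop := fun AB F =>
    x ≤ eb E AB.1 AB.2 ∧ Disjoint (E.filter fun e => ∃ a ∈ AB.1, ∃ b ∈ AB.2, e = s(a, b)) F
    with hBad
  have step1 : pr E q (fun F => ¬ Ev F) ≤ pr E q (fun F => ∃ i ∈ I, Bad i F) := by
    refine pr_mono E h0 h1 fun F hF hn => ?_
    simp only [hEv] at hn
    push Not at hn
    obtain ⟨A, hA, B, hB, hxe, hn⟩ := hn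
    refine ⟨(A, B), ?_, hxe, ?_⟩
    · rw [hI, Finset.mem_product]
      exact ⟨Finset.mem_powerset.2 hA, Finset.mem_powerset.2 hB⟩
    · rw [Finset.disjoint_left]
      intro e he heF
      rw [Finset.mem_filter] at he
      obtain ⟨_, a, ha, b, hb, rfl⟩ := he
      exact hn a ha b hb heF
  refine step1.trans ((pr_exists_le E h0 h1 I Bad).trans ?_)
  have step2 : ∀ i ∈ I, pr E q (Bad i) ≤ (1 - q) ^ x := by
    intro i _
    by_cases hxi : x ≤ eb E i.1 i.2
    · have hsub : (E.filter fun e => ∃ a ∈ i.1, ∃ b ∈ i.2, e = s(a, b)) ⊆ E :=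
        Finset.filter_subset _ _
      calc pr E q (Bad i) ≤ pr E q (fun F =>
            Disjoint (E.filter fun e => ∃ a ∈ i.1, ∃ b ∈ i.2, e = s(a, b)) F) :=
            pr_mono E h0 h1 fun F _ h => h.2
        _ = (1 - q) ^ (E.filter fun e => ∃ a ∈ i.1, ∃ b ∈ i.2, e = s(a, b)).card :=
            pr_disjoint E _ hsub q
        _ ≤ (1 - q) ^ x := by
            refine pow_le_pow_of_le_one (by linarith) (by linarith) ?_
            refine hxi.trans (le_of_eq ?_)
            unfold eb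
            congr!
    · calc pr E q (Bad i) ≤ pr E q (fun _ => False) :=
            pr_mono E h0 h1 fun F _ h => hxi h.1
        _ = 0 := by simp [pr]
        _ ≤ (1 - q) ^ x := hx0
  calc ∑ i ∈ I, pr E q (Bad i) ≤ ∑ i ∈ I, (1 - q) ^ x := Finset.sum_le_sum step2
    _ = 4 ^ Λ.card * (1 - q) ^ x := by rw [Finset.sum_const, nsmul_eq_mul, hIc]

end P

end Pool.H85.LC
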